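import Pool.Agent.Helper84.AV.Quad

set_option autoImplicit false

namespace Pool.Agent.Results.MP_753a9c_nt.OddCoefficients

open NumberField IsDedekindDomain Matrix MeasureTheory Pool.Agent.Helper4.ST Pool.Agent.Helper84.AV
open scoped MatrixGroups

/-- Odd functions have integral `0`. -/
theorem integral_odd' {r : ℕ} {U : Subgroup (GL (Fin r) ℂ)} (hneg : (-1 : GL (Fin r) ℂ) ∈ U)
    [MeasurableSpace U] [MeasurableMul U] (μ : Measure U) [μ.IsMulLeftInvariant]
    (f : U → ℝ) (hf : ∀ u v : U, (v : GL (Fin r) ℂ) = -(u : GL (Fin r) ℂ) → f v = -f u) :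
    ∫ u, f u ∂μ = 0 := by
  have h1 := integral_mul_left_eq_self (μ := μ) f (⟨-1, hneg⟩ : U)
  have h2 : ∀ u : U, f ((⟨-1, hneg⟩ : U) * u) = -f u := by
    intro u
    apply hf
    rw [Subgroup.coe_mul]
    simp
  simp only [h2, integral_neg] at h1
  linarith

open Classical in
/-- **The odd part of the generalized Sato-Tate law for almost all quadratic twists.**
Let `0 < 2 / A < θ ≤ 1` and `κ = (θ - 2 / A) / 60`, and let `Q` be large in terms of `g, θ, A`.
Let `D` be the `ℓ`-adic data of an abelian variety of dimension `g` over `ℚ`.  Then for all but at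
most `Q ^ θ` primitive real characters `χ` of conductor `2 ≤ q ≤ Q` the following holds: the twist
of `D` by `χ` has the same Sato-Tate group `U` as `D`, and for all odd `i`, all odd functions `f` on
the line with Lipschitz constant `1` and all `X` with `(log Q) ^ A ≤ X ≤ exp (Q ^ κ)`,
`|∑_{p ≤ X} (f (a_i(p)) - ∫ f (Φ_i(u)) dμ(u))| ≤ X min(X, Q) ^ (-κ)`,
where `a_i(p)` are the coefficients of the normalised `L`-polynomials of the twist, `p` runs over
its primes of good reduction and `μ` is the Haar probability measure of `U`. -/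
theorem result (g : ℕ) (θ A : ℝ) (hA : 0 < A) (hθ : 2 / A < θ) (hθ1 : θ ≤ 1) :
    ∃ Q₀ : ℕ, ∀ D : Datum g, ∀ Q : ℕ, Q₀ ≤ Q →
      ∃ E : Finset (Σ q : ℕ, DirichletCharacter ℤ q), (E.card : ℝ) ≤ (Q : ℝ) ^ θ ∧
        ∀ (q : ℕ) [NeZero q] (χ : DirichletCharacter ℤ q), 2 ≤ q → q ≤ Q → χ.IsPrimitive →
          (⟨q, χ⟩ : Σ q : ℕ, DirichletCharacter ℤ q) ∉ E →
          ∀ (ℓ : ℕ) [Fact ℓ.Prime] (τ : ℚ_[ℓ] →+* ℂ) (U : Subgroup (GL (Fin (2 * g)) ℂ))
            [MeasurableSpace U] [BorelSpace U] (μ : Measure U) [μ.IsHaarMeasure]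
            [IsProbabilityMeasure μ],
            D.IsSatoTateGroup ℓ τ U →
            (D.twist χ).IsSatoTateGroup ℓ τ U ∧
            ∀ i : ℕ, Odd i → i ≤ 2 * g →
              ∀ f : ℝ → ℝ, LipschitzWith 1 f → (∀ t, f (-t) = -f t) →
                ∀ X : ℕ, Real.log Q ^ A ≤ X →
                  (X : ℝ) ≤ Real.exp ((Q : ℝ) ^ ((θ - 2 / A) / 60)) →
                  |∑ p ∈ (primesUpTo X).filter (Good (D.twist χ)),
                      (f (a (D.twist χ) i p) - ∫ u : U, f (Phi g i u) ∂μ)| ≤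
                    (X : ℝ) * min (X : ℝ) (Q : ℝ) ^ (-((θ - 2 / A) / 60)) := by
  obtain ⟨Q₀, hQ₀⟩ := uniform_quad g θ A hA hθ hθ1
  refine ⟨Q₀, ?_⟩
  intro D Q hQ
  obtain ⟨E, hEcard, hE⟩ := hQ₀ D Q hQ
  refine ⟨E, hEcard, ?_⟩
  intro q _ χ hq2 hqQ hprim hnot ℓ _ τ U _ _ μ _ _ hU
  have hℓ0 : NeZero ℓ := ⟨(Fact.out : ℓ.Prime).ne_zero⟩
  -- a good prime
  have hfrob : D.HasFrob ℓ χ := by
    obtain ⟨v, hv⟩ := exists_prime_notMem
      ((D.twist χ).bad ∪ (Family.finite_dvd (K := ℚ) ℓ).toFinset)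
    rw [Finset.mem_union, not_or, Set.Finite.mem_toFinset] at hv
    obtain ⟨σ, hσ⟩ := exists_isFrob (K := ℚ) (Ω := AlgebraicClosure ℚ) v
    exact ⟨v, hv.1, hv.2, σ, hσ⟩
  obtain ⟨v₀, hv₀, hℓ₀, σ₀, hσ₀⟩ := id hfrob
  have hzcl := D.neg_one_mem_zcl ℓ τ odd_one ((D.twist_bad χ).1 hv₀).1 hℓ₀ hσ₀
  have hneg : (-1 : GL (Fin (2 * g)) ℂ) ∈ U := D.neg_one_mem ℓ τ hzcl hU
  refine ⟨Family.twist_group D ℓ τ χ odd_one hfrob hU, ?_⟩
  intro i hi hi2 f hf hodd X hX1 hX2
  have hf0 : f 0 = 0 := by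
    have := hodd 0
    rw [neg_zero] at this
    linarith
  have h1 := hE q χ hq2 hqQ hprim hnot i hi2 f hf (by rw [hf0]; simp) X hX1 hX2
  have hint : ∫ u : U, f (Phi g i u) ∂μ = 0 := by
    apply integral_odd' hneg μ
    intro u v huv
    rw [huv, Phi_neg i hi2, hi.neg_one_pow, neg_one_mul, hodd]
  rw [hint]
  simp only [sub_zero]
  refine le_trans (le_of_eq ?_) h1
  congr 1
  have h2 : ∀ p ∈ (primesUpTo X).filter (Good (D.twist χ)),
      f (a (D.twist χ) i p) = ((χ ((p : ℕ) : ZMod q) : ℤ) : ℝ) * f (a D i p) := by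
    intro p hp
    rw [Finset.mem_filter, good_twist] at hp
    rw [a_twist D χ i hi2 hp.2.2]
    rcases char_sq χ hp.2.2 with h | h
    · rw [h]
      simp
    · rw [h]
      push_cast
      rw [hi.neg_one_pow, neg_one_mul, hodd, neg_one_mul]
  rw [Finset.sum_congr rfl h2]
  apply Finset.sum_subset
  · intro p hp
    rw [Finset.mem_filter, good_twist] at hp
    rw [Finset.mem_filter]
    exact ⟨hp.1, hp.2.1⟩
  · intro p hp hp'
    rw [Finset.mem_filter] at hp
    rw [Finset.mem_filter, good_twist] at hp'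
    have hdvd : (p : ℕ) ∣ q := by
      by_contra hno
      exact hp' ⟨hp.1, hp.2, hno⟩
    have h3 : ¬ IsUnit (((p : ℕ) : ZMod q)) := by
      rw [ZMod.isUnit_iff_coprime]
      intro hcop
      exact (Nat.Prime.coprime_iff_not_dvd p.2).1 hcop hdvd
    rw [χ.map_nonunit h3]
    simp

end Pool.Agent.Results.MP_753a9c_nt.OddCoefficients
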