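import Pool.Agent.Helper84.AV.Coset

set_option autoImplicit false

namespace Pool.Agent.Results.MP_753a9c_nt.ResidueClasses

open NumberField IsDedekindDomain Matrix MeasureTheory Pool.Agent.Helper4.ST Pool.Agent.Helper84.AV
open scoped MatrixGroups

open Classical in
/-- **Joint laws of `a_i(p)` and `p mod q` for almost all primes `q`.**
Let `0 < 2 / A < θ ≤ 1` and `κ = (θ - 2 / A) / 60`, and let `Q` be large in terms of `g, θ, A`.
Let `D` be the `ℓ`-adic data of an abelian variety of dimension `g` over `ℚ`.  Then for all but at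
most `Q ^ θ` primes `q ≤ Q` the following holds: for all `i ≤ 2 g`, all functions `f` on the line
with Lipschitz constant `1` and `|f 0| ≤ 1`, all subgroups `H` of `(ℤ/qℤ)ˣ`, of index `m`, all
cosets `b H` and all `X` with `(log Q) ^ A ≤ X ≤ exp (Q ^ κ)`,
`|m ∑_{p ≤ X, p mod q ∈ b H} f (a_i(p)) - ∑_{p ≤ X} f (a_i(p))| ≤ m X min(X, Q) ^ (-κ)`,
where `p` runs over the primes of good reduction.  The condition on `p mod q` says that the
Frobenius of `p` in the subfield of `ℚ(ζ_q)` fixed by `H` is the class of `b`. -/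
theorem result (g : ℕ) (θ A : ℝ) (hA : 0 < A) (hθ : 2 / A < θ) (hθ1 : θ ≤ 1) :
    ∃ Q₀ : ℕ, ∀ D : Datum g, ∀ Q : ℕ, Q₀ ≤ Q →
      ∃ E : Finset ℕ, (E.card : ℝ) ≤ (Q : ℝ) ^ θ ∧
        ∀ q : ℕ, q.Prime → q ≤ Q → q ∉ E →
          ∀ i : ℕ, i ≤ 2 * g → ∀ f : ℝ → ℝ, LipschitzWith 1 f → |f 0| ≤ 1 →
            ∀ (H : Subgroup (ZMod q)ˣ) (b : (ZMod q)ˣ) (X : ℕ), Real.log Q ^ A ≤ X →
              (X : ℝ) ≤ Real.exp ((Q : ℝ) ^ ((θ - 2 / A) / 60)) →
              |(H.index : ℝ) *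
                  ∑ p ∈ (primesUpTo X).filter (fun p => Good D p ∧
                    ∃ h ∈ H, ((p : ℕ) : ZMod q) = ((b * h : (ZMod q)ˣ) : ZMod q)), f (a D i p) -
                ∑ p ∈ (primesUpTo X).filter (Good D), f (a D i p)| ≤
                (H.index : ℝ) *
                  ((X : ℝ) * min (X : ℝ) (Q : ℝ) ^ (-((θ - 2 / A) / 60))) := by
  obtain ⟨Q₀, hQ₀⟩ := uniform_coset g θ A hA hθ hθ1
  refine ⟨Q₀, fun D Q hQ => ?_⟩
  obtain ⟨E, hEcard, hE⟩ := hQ₀ D Q hQ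
  refine ⟨E, hEcard, fun q hq hqQ hqE i hi f hf hf0 H b X hX1 hX2 => ?_⟩
  exact hE q hq hqQ hqE i hi f hf hf0 H b X hX1 hX2

end Pool.Agent.Results.MP_753a9c_nt.ResidueClasses
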