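import Pool.Agent.Helper84.AV.Residue2
import Pool.Agent.Helper4.AV.Scale3

set_option autoImplicit false

namespace Pool.Agent.Results.MP_753a9c_nt.ResiduesEveryInterval

open NumberField IsDedekindDomain Matrix MeasureTheory Pool.Agent.Helper4.ST Pool.Agent.Helper84.AV
open scoped MatrixGroups

open Classical in
/-- **Joint laws of `a_i(p)` and `p mod q` for all but a bounded number of primes `q`, in every
interval.**
Let `D` be the `ℓ`-adic data of an abelian variety of dimension `g` over `ℚ` and let `i ≤ 2 g`,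
`Z ≥ 0`, `Y ≥ 2` and `ε > 0`.  For all but at most `877500 (2g choose i) ^ 3 / ε ^ 2` (for `Z = 0`,
at most `117000 (2g choose i) ^ 3 / ε ^ 2`) primes `q ≤ Y ^ (1/6)` the following holds: for all
functions `f` on the line with Lipschitz constant `1` and `|f 0| ≤ 1`, all subgroups `H` of
`(ℤ/qℤ)ˣ`, of index `m`, and all cosets `b H`,
`|m ∑_{Z < p ≤ Z + Y, p mod q ∈ b H} f (a_i(p)) - ∑_{Z < p ≤ Z + Y, p ≠ q} f (a_i(p))| ≤
√m ε Y / log Y`,
where `p` runs over the primes of good reduction.  The condition on `p mod q` says that the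
Frobenius of `p` in the subfield of `ℚ(ζ_q)` fixed by `H` is the class of `b`. -/
theorem result (g : ℕ) (D : Datum g) (i : ℕ) (hi : i ≤ 2 * g) (Z Y : ℕ) (hY : 2 ≤ Y) (ε : ℝ)
    (hε : 0 < ε) :
    ∃ E : Finset ℕ, (E.card : ℝ) ≤
        (if Z = 0 then 117000 else 877500) * ((2 * g).choose i : ℝ) ^ 3 / ε ^ 2 ∧
      ∀ q : ℕ, q.Prime → q ^ 6 ≤ Y → q ∉ E →
        ∀ f : ℝ → ℝ, LipschitzWith 1 f → |f 0| ≤ 1 →
          ∀ (H : Subgroup (ZMod q)ˣ) (b : (ZMod q)ˣ),
            |(H.index : ℝ) *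
                ∑ p ∈ (primesUpTo (Z + Y)).filter (fun p => (Good D p ∧ Z < (p : ℕ)) ∧
                  ∃ h ∈ H, ((p : ℕ) : ZMod q) = ((b * h : (ZMod q)ˣ) : ZMod q)), f (a D i p) -
              ∑ p ∈ (primesUpTo (Z + Y)).filter
                  (fun p => (Good D p ∧ Z < (p : ℕ)) ∧ (p : ℕ) ≠ q), f (a D i p)| ≤
              Real.sqrt H.index * (ε * (Y / Real.log Y)) := by
  have hX1 : (1 : ℝ) < Y := by exact_mod_cast (by omega : 1 < Y)
  have hlog : 0 < Real.log Y := Real.log_pos hX1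
  set W : ℝ := Y / Real.log Y with hW
  have hW0 : 0 < W := by positivity
  -- the property for one prime
  set P : ℕ → Prop := fun q => ∀ f : ℝ → ℝ, LipschitzWith 1 f → |f 0| ≤ 1 →
          ∀ (H : Subgroup (ZMod q)ˣ) (b : (ZMod q)ˣ),
            |(H.index : ℝ) *
                ∑ p ∈ (primesUpTo (Z + Y)).filter (fun p => (Good D p ∧ Z < (p : ℕ)) ∧
                  ∃ h ∈ H, ((p : ℕ) : ZMod q) = ((b * h : (ZMod q)ˣ) : ZMod q)), f (a D i p) -
              ∑ p ∈ (primesUpTo (Z + Y)).filter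
                  (fun p => (Good D p ∧ Z < (p : ℕ)) ∧ (p : ℕ) ≠ q), f (a D i p)| ≤
              Real.sqrt H.index * (ε * W) with hP
  set E : Finset ℕ := (Finset.range (Y + 1)).filter (fun q => q.Prime ∧ q ^ 6 ≤ Y ∧ ¬ P q) with hE
  refine ⟨E, ?_, ?_⟩
  · -- a bad function for every exceptional prime
    have hbad : ∀ q : ℕ, ∃ f : ℝ → ℝ, LipschitzWith 1 f ∧ |f 0| ≤ 1 ∧ (q ∈ E →
        (ε * W) ^ 2 < ∑ χ ∈ np q, ‖∑ p ∈ (primesUpTo (Z + Y)).filter
          (fun p => Good D p ∧ Z < (p : ℕ)), χ ((p : ℕ) : ZMod q) * (f (a D i p) : ℂ)‖ ^ 2) := by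
      intro q
      by_cases hq : q ∈ E
      · have hq' := (Finset.mem_filter.1 hq).2
        obtain ⟨hqp, _, hnP⟩ := hq'
        rw [hP] at hnP
        push Not at hnP
        obtain ⟨f, hf, hf0, H, b, hlt⟩ := hnP
        refine ⟨f, hf, hf0, fun _ => ?_⟩
        by_contra hle
        rw [not_lt] at hle
        have h9 := coset_bound_prime (Z + Y) (fun p => Good D p ∧ Z < (p : ℕ))
          (fun p => f (a D i p)) q hqp (ε * W) (by positivity) (by
            refine le_trans (le_of_eq ?_) hle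
            refine Finset.sum_congr rfl fun j _ => ?_
            congr!) H b
        refine absurd (lt_of_lt_of_le hlt (le_of_eq_of_le ?_ h9)) (lt_irrefl _)
        congr!
      · exact ⟨fun _ => 0, (LipschitzWith.const 0).weaken zero_le_one, by simp, fun h => absurd h hq⟩
    choose f hf hf0 hfbad using hbad
    have hC1 : 1 ≤ (2 * g).choose i := Nat.choose_pos hi
    have hT : ∀ t ∈ E.sigma np, 1 ≤ t.1 ∧ t.1 ^ 6 ≤ Y ∧ t.2.IsPrimitive := by
      rintro ⟨q, χ⟩ ht
      rw [Finset.mem_sigma] at ht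
      obtain ⟨hq, hχ⟩ := ht
      have hq' := (Finset.mem_filter.1 hq).2
      have hNZ : NeZero q := ⟨hq'.1.ne_zero⟩
      refine ⟨hq'.1.one_le, hq'.2.1, ?_⟩
      have h2 : np q = Pool.Agent.Helper7.ST.nonprin q := by
        unfold np
        rw [dif_neg hq'.1.ne_zero]
      simp only [h2] at hχ
      exact Pool.Agent.Helper7.ST.primitive_of_prime hq'.1 (Pool.Agent.Helper7.ST.mem_nonprin.1 hχ)
    have h1 : ∑ t ∈ E.sigma np, ‖∑ p ∈ (primesUpTo (Z + Y)).filter
          (fun p => Good D p ∧ Z < (p : ℕ)),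
          t.2 ((p : ℕ) : ZMod t.1) * (f t.1 (a D i p) : ℂ)‖ ^ 2 ≤
        (if Z = 0 then 117000 else 877500) * ((2 * g).choose i : ℝ) ^ 3 * W ^ 2 := by
      split_ifs with hZ
      · have h3 := sup_scale (Z + Y) (by omega) (E.sigma np)
          (fun t ht => ⟨(hT t ht).1, by have := (hT t ht).2.1; omega, (hT t ht).2.2⟩)
          (fun p => Good D p ∧ Z < (p : ℕ)) (a D i) ((2 * g).choose i) hC1
          (fun p hp => abs_a_le D hp.1 i hi) (fun t => f t.1) (fun t _ => hf t.1)
          (fun t _ => hf0 t.1)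
        have h4 : Z + Y = Y := by omega
        rw [h4] at h3 ⊢
        refine le_trans (le_of_eq ?_) h3
        refine Finset.sum_congr rfl fun j _ => ?_
        congr!
      · have h3 := sup_interval Z Y hY (E.sigma np) hT (Good D) (a D i) ((2 * g).choose i) hC1
          (fun p hp => abs_a_le D hp i hi) (fun t => f t.1) (fun t _ => hf t.1)
          (fun t _ => hf0 t.1)
        refine le_trans (le_of_eq ?_) h3
        refine Finset.sum_congr rfl fun j _ => ?_
        congr!
    rw [Finset.sum_sigma] at h1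
    have h2 : (E.card : ℝ) * (ε * W) ^ 2 ≤ ∑ q ∈ E, ∑ χ ∈ np q,
        ‖∑ p ∈ (primesUpTo (Z + Y)).filter (fun p => Good D p ∧ Z < (p : ℕ)),
          χ ((p : ℕ) : ZMod q) * (f q (a D i p) : ℂ)‖ ^ 2 := by
      rw [← nsmul_eq_mul, ← Finset.sum_const]
      exact Finset.sum_le_sum fun q hq => (hfbad q hq).le
    have h3 : (E.card : ℝ) * ε ^ 2 * W ^ 2 ≤
        (if Z = 0 then 117000 else 877500) * ((2 * g).choose i : ℝ) ^ 3 * W ^ 2 := by
      calc (E.card : ℝ) * ε ^ 2 * W ^ 2 = (E.card : ℝ) * (ε * W) ^ 2 := by ring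
        _ ≤ _ := h2.trans h1
    have h4 := le_of_mul_le_mul_right h3 (by positivity)
    rw [le_div_iff₀ (by positivity)]
    exact h4
  · intro q hq hqX hqE
    by_contra h
    apply hqE
    rw [hE, Finset.mem_filter, Finset.mem_range]
    refine ⟨?_, hq, hqX, h⟩
    have : q ≤ q ^ 6 := Nat.le_self_pow (by norm_num) q
    omega

end Pool.Agent.Results.MP_753a9c_nt.ResiduesEveryInterval
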