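import Pool.Agent.Helper84.AV.Twist
import Pool.Agent.Helper4.AV.Scale3

set_option autoImplicit false

namespace Pool.Agent.Results.MP_753a9c_nt.TwistsEveryInterval

open NumberField IsDedekindDomain Matrix MeasureTheory Pool.Agent.Helper4.ST Pool.Agent.Helper84.AV
open scoped MatrixGroups

open Classical in
/-- The sum over the good primes of a twist in an interval. -/
theorem sum_twist_int {g : ℕ} (D : Datum g) {q : ℕ} [NeZero q] (χ : DirichletCharacter ℤ q)
    (i : ℕ) (hi : Odd i) (hi2 : i ≤ 2 * g) (f : ℝ → ℝ) (hodd : ∀ t, f (-t) = -f t) (Z X : ℕ) :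
    ∑ p ∈ (primesUpTo X).filter (fun p => Good (D.twist χ) p ∧ Z < (p : ℕ)),
        f (a (D.twist χ) i p) =
      ∑ p ∈ (primesUpTo X).filter (fun p => Good D p ∧ Z < (p : ℕ)),
        ((χ ((p : ℕ) : ZMod q) : ℤ) : ℝ) * f (a D i p) := by
  have h2 : ∀ p ∈ (primesUpTo X).filter (fun p => Good (D.twist χ) p ∧ Z < (p : ℕ)),
      f (a (D.twist χ) i p) = ((χ ((p : ℕ) : ZMod q) : ℤ) : ℝ) * f (a D i p) := by
    intro p hp
    rw [Finset.mem_filter, good_twist] at hp
    rw [a_twist D χ i hi2 hp.2.1.2]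
    rcases char_sq χ hp.2.1.2 with h | h
    · rw [h]
      simp
    · rw [h]
      push_cast
      rw [hi.neg_one_pow, neg_one_mul, hodd, neg_one_mul]
  rw [Finset.sum_congr rfl h2]
  apply Finset.sum_subset
  · intro p hp
    rw [Finset.mem_filter, good_twist] at hp
    rw [Finset.mem_filter]
    exact ⟨hp.1, hp.2.1.1, hp.2.2⟩
  · intro p hp hp'
    rw [Finset.mem_filter] at hp
    rw [Finset.mem_filter, good_twist] at hp'
    have hdvd : (p : ℕ) ∣ q := by
      by_contra hno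
      exact hp' ⟨hp.1, ⟨hp.2.1, hno⟩, hp.2.2⟩
    have h3 : ¬ IsUnit (((p : ℕ) : ZMod q)) := by
      rw [ZMod.isUnit_iff_coprime]
      intro hcop
      exact (Nat.Prime.coprime_iff_not_dvd p.2).1 hcop hdvd
    rw [χ.map_nonunit h3]
    simp

open Classical in
/-- **A maximal Bessel inequality for the odd part of the generalized Sato-Tate law of the
quadratic twists, in every interval.**
Let `D` be the `ℓ`-adic data of an abelian variety of dimension `g` over `ℚ`, with Sato-Tate group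
`U` and Haar probability measure `μ`, and let `i` be odd.  Let `(χ_s)` be any finite family of
distinct primitive real characters, and for each `s` let `f_s` be an odd function on the line with
Lipschitz constant `1`.  Then all twists `D ⊗ χ_s` have the Sato-Tate group `U`, and for all
`Z ≥ 0` and `Y ≥ 2`
`∑_s |∑_{Z < p ≤ Z + Y} (f_s (a_i(p)) - ∫ f_s (Φ_i(u)) dμ(u))| ^ 2 ≤
877500 (2g choose i) ^ 3 (Y / log Y) ^ 2`
(for `Z = 0` with `117000` in place of `877500`), where the outer sum is over all `s` for which the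
conductor of `χ_s` is at most `Y ^ (1/6)`, the `a_i(p)` are those of the twist `D ⊗ χ_s` and `p`
runs over its primes of good reduction. -/
theorem result (g : ℕ) (D : Datum g) (ℓ : ℕ) [Fact ℓ.Prime] (τ : ℚ_[ℓ] →+* ℂ)
    (U : Subgroup (GL (Fin (2 * g)) ℂ)) [MeasurableSpace U] [BorelSpace U] (μ : Measure U)
    [μ.IsHaarMeasure] [IsProbabilityMeasure μ] (hU : D.IsSatoTateGroup ℓ τ U)
    (i : ℕ) (hi : Odd i) (hi2 : i ≤ 2 * g)
    (ι : Type) [Fintype ι] (q : ι → ℕ) [∀ s, NeZero (q s)]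
    (χ : ∀ s, DirichletCharacter ℤ (q s)) (hprim : ∀ s, (χ s).IsPrimitive)
    (hinj : Function.Injective fun s => (⟨q s, χ s⟩ : Σ q : ℕ, DirichletCharacter ℤ q))
    (f : ι → ℝ → ℝ) (hf : ∀ s, LipschitzWith 1 (f s)) (hodd : ∀ s t, f s (-t) = -f s t)
    (Z Y : ℕ) (hY : 2 ≤ Y) :
    (∀ s, (D.twist (χ s)).IsSatoTateGroup ℓ τ U) ∧
    ∑ s with q s ^ 6 ≤ Y, (∑ p ∈ (primesUpTo (Z + Y)).filter
          (fun p => Good (D.twist (χ s)) p ∧ Z < (p : ℕ)),
        (f s (a (D.twist (χ s)) i p) - ∫ u : U, f s (Phi g i u) ∂μ)) ^ 2 ≤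
      (if Z = 0 then 117000 else 877500) * ((2 * g).choose i : ℝ) ^ 3 * (Y / Real.log Y) ^ 2 := by
  refine ⟨fun s => twist_group' D ℓ τ hU (χ s), ?_⟩
  have hneg := neg_one_mem D ℓ τ hU
  have hint : ∀ s, ∫ u : U, f s (Phi g i u) ∂μ = 0 := fun s =>
    integral_Phi hneg μ i hi hi2 (f s) (hodd s)
  simp only [hint, sub_zero]
  -- the complex characters
  set c : ι → (Σ q : ℕ, DirichletCharacter ℂ q) := fun s => toCSigma ⟨q s, χ s⟩ with hc
  have hcinj : Function.Injective c := toCSigma_injective.comp hinj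
  set T : Finset (Σ q : ℕ, DirichletCharacter ℂ q) :=
    (Finset.univ.filter (fun s => q s ^ 6 ≤ Y)).map ⟨c, hcinj⟩ with hT
  set F : (Σ q : ℕ, DirichletCharacter ℂ q) → ℝ → ℝ := Function.extend c f (fun _ _ => 0) with hF
  have hFc : ∀ s, F (c s) = f s := fun s => hcinj.extend_apply f _ s
  have hC1 : 1 ≤ (2 * g).choose i := Nat.choose_pos hi2
  have hf0 : ∀ s, f s 0 = 0 := by
    intro s
    have := hodd s 0
    rw [neg_zero] at this
    linarith
  have hTT : ∀ t ∈ T, 1 ≤ t.1 ∧ t.1 ^ 6 ≤ Y ∧ t.2.IsPrimitive := by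
    intro t ht
    rw [hT, Finset.mem_map] at ht
    obtain ⟨s, hs, rfl⟩ := ht
    rw [Finset.mem_filter] at hs
    show 1 ≤ q s ∧ q s ^ 6 ≤ Y ∧ (toC (χ s)).IsPrimitive
    exact ⟨Nat.one_le_iff_ne_zero.2 (NeZero.ne (q s)), hs.2, toC_primitive (hprim s)⟩
  have hFL : ∀ t ∈ T, LipschitzWith 1 (F t) := by
    intro t ht
    rw [hT, Finset.mem_map] at ht
    obtain ⟨s, hs, rfl⟩ := ht
    show LipschitzWith 1 (F (c s))
    rw [hFc]
    exact hf s
  have hF0 : ∀ t ∈ T, |F t 0| ≤ 1 := by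
    intro t ht
    rw [hT, Finset.mem_map] at ht
    obtain ⟨s, hs, rfl⟩ := ht
    show |F (c s) 0| ≤ 1
    rw [hFc, hf0]
    simp
  have h1 : ∑ t ∈ T, ‖∑ p ∈ (primesUpTo (Z + Y)).filter (fun p => Good D p ∧ Z < (p : ℕ)),
        t.2 ((p : ℕ) : ZMod t.1) * (F t (a D i p) : ℂ)‖ ^ 2 ≤
      (if Z = 0 then 117000 else 877500) * ((2 * g).choose i : ℝ) ^ 3 *
        (Y / Real.log Y) ^ 2 := by
    split_ifs with hZ
    · have h3 := sup_scale (Z + Y) (by omega) T
        (fun t ht => ⟨(hTT t ht).1, by have := (hTT t ht).2.1; omega, (hTT t ht).2.2⟩)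
        (fun p => Good D p ∧ Z < (p : ℕ)) (a D i) ((2 * g).choose i) hC1
        (fun p hp => abs_a_le D hp.1 i hi2) F hFL hF0
      have h4 : Z + Y = Y := by omega
      rw [h4] at h3 ⊢
      refine le_trans (le_of_eq ?_) h3
      refine Finset.sum_congr rfl fun j _ => ?_
      congr!
    · have h3 := sup_interval Z Y hY T hTT (Good D) (a D i) ((2 * g).choose i) hC1
        (fun p hp => abs_a_le D hp i hi2) F hFL hF0
      refine le_trans (le_of_eq ?_) h3
      refine Finset.sum_congr rfl fun j _ => ?_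
      congr!
  refine le_trans (le_of_eq ?_) h1
  rw [hT, Finset.sum_map]
  refine Finset.sum_congr rfl fun s _ => ?_
  show _ = ‖∑ p ∈ (primesUpTo (Z + Y)).filter (fun p => Good D p ∧ Z < (p : ℕ)),
    (c s).2 ((p : ℕ) : ZMod (c s).1) * (F (c s) (a D i p) : ℂ)‖ ^ 2
  rw [hFc]
  have h2 : ∑ p ∈ (primesUpTo (Z + Y)).filter (fun p => Good D p ∧ Z < (p : ℕ)),
      (c s).2 ((p : ℕ) : ZMod (c s).1) * (f s (a D i p) : ℂ) =
      ((∑ p ∈ (primesUpTo (Z + Y)).filter (fun p => Good D p ∧ Z < (p : ℕ)),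
        ((χ s ((p : ℕ) : ZMod (q s)) : ℤ) : ℝ) * f s (a D i p) : ℝ) : ℂ) := by
    rw [Complex.ofReal_sum]
    refine Finset.sum_congr rfl fun p _ => ?_
    show ((χ s ((p : ℕ) : ZMod (q s)) : ℤ) : ℂ) * (f s (a D i p) : ℂ) = _
    push_cast
    ring
  rw [h2, Complex.norm_real, Real.norm_eq_abs, sq_abs]
  have h5 := sum_twist_int D (χ s) i hi hi2 (f s) (hodd s) Z (Z + Y)
  have h6 : ∑ p ∈ (primesUpTo (Z + Y)).filter
        (fun p => Good (D.twist (χ s)) p ∧ Z < (p : ℕ)), f s (a (D.twist (χ s)) i p) =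
      ∑ p ∈ (primesUpTo (Z + Y)).filter (fun p => Good D p ∧ Z < (p : ℕ)),
        ((χ s ((p : ℕ) : ZMod (q s)) : ℤ) : ℝ) * f s (a D i p) := by
    convert h5
  rw [h6]

end Pool.Agent.Results.MP_753a9c_nt.TwistsEveryInterval
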